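import Pool.Agent.N753.DR.Stm6
import Pool.Agent.N262.DR.Box

/-! Project PC, part LIN: linear forms are rarely small, uniformly in the coefficients. -/

set_option autoImplicit false

namespace Pool.Agent.N364.PC

open NumberField IsDedekindDomain Module Polynomial Pool.Agent.N753.DR

theorem card_close {T : Finset ℤ} {R : ℝ} (hR : 0 ≤ R)
    (h : ∀ a ∈ T, ∀ b ∈ T, ((b : ℝ) - a) ≤ R) : T.card ≤ ⌊R⌋₊ + 1 := by
  rcases T.eq_empty_or_nonempty with rfl | hne
  · simp
  · have hm := T.min'_mem hne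
    have hsub : T ⊆ Finset.Icc (T.min' hne) (T.min' hne + ⌊R⌋₊) := by
      intro b hb
      rw [Finset.mem_Icc]
      refine ⟨T.min'_le b hb, ?_⟩
      have h1 := h _ hm b hb
      have h2 : b - T.min' hne ≤ ⌊R⌋ := by
        rw [Int.le_floor]
        push_cast
        exact h1
      have h3 : (⌊R⌋₊ : ℤ) = ⌊R⌋ := Int.natCast_floor_eq_floor hR
      linarith
    have h4 := Finset.card_le_card hsub
    rw [Int.card_Icc] at h4
    omega

theorem coord {K : Type} [Field K] [NumberField K] (c c' : 𝓞 K)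
    (l : Module.Free.ChooseBasisIndex ℤ (𝓞 K))
    (h : ∀ i, i ≠ l → (RingOfIntegers.basis K).repr c i = (RingOfIntegers.basis K).repr c' i) :
    c' = c + ((RingOfIntegers.basis K).repr c' l - (RingOfIntegers.basis K).repr c l) •
      RingOfIntegers.basis K l := by
  apply (RingOfIntegers.basis K).repr.injective
  ext i
  rw [map_add, map_smul, Basis.repr_self, Finsupp.add_apply, Finsupp.smul_apply, smul_eq_mul]
  by_cases hi : i = l
  · subst hi
    rw [Finsupp.single_eq_same]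
    ring
  · rw [Finsupp.single_eq_of_ne hi, mul_zero, add_zero]
    exact (h i hi).symm

theorem t : StmLin := by
  intro K _ _ σ n hn
  classical
  have hcι : Fintype.card (Module.Free.ChooseBasisIndex ℤ (𝓞 K)) = finrank ℚ K := by
    rw [← RingOfIntegers.rank K]
    exact (Module.finrank_eq_card_chooseBasisIndex ℤ (𝓞 K)).symm
  have hd : 0 < finrank ℚ K := finrank_pos
  obtain ⟨l₀⟩ : Nonempty (Module.Free.ChooseBasisIndex ℤ (𝓞 K)) :=
    Fintype.card_pos_iff.1 (by rw [hcι]; exact hd)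
  have hω : RingOfIntegers.basis K l₀ ≠ 0 := (RingOfIntegers.basis K).ne_zero l₀
  obtain ⟨s0, hs0⟩ : ∃ s0 : ℝ, s0 = ‖σ ((RingOfIntegers.basis K l₀ : 𝓞 K) : K)‖ := ⟨_, rfl⟩
  have hs0p : 0 < s0 := by
    rw [hs0, norm_pos_iff, _root_.map_ne_zero]
    exact RingOfIntegers.coe_ne_zero_iff.2 hω
  have hdn : 1 ≤ finrank ℚ K * n := Nat.mul_pos hd hn
  refine ⟨3 ^ (finrank ℚ K * n - 1) * (2 / s0 + 1), by positivity, ?_⟩
  rintro b ⟨j₀, hj₀⟩ X η hX hη
  have hfin : ({c ∈ Bx K n X | ‖∑ j, σ (c j : K) * b j‖ ≤ η}).Finite :=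
    (Pool.Agent.N262.DR.Bx_finite n X).subset fun c hc => hc.1
  rw [Set.ncard_eq_toFinset_card _ hfin]
  have hS : ∀ c ∈ hfin.toFinset, c ∈ Bx K n X ∧ ‖∑ j, σ (c j : K) * b j‖ ≤ η := by
    intro c hc
    exact (Set.Finite.mem_toFinset hfin).1 hc
  generalize hfin.toFinset = S at hS
  let g : (Fin n → 𝓞 K) → ({p : Fin n × Module.Free.ChooseBasisIndex ℤ (𝓞 K) //
      p ≠ (j₀, l₀)} → ℤ) := fun c p => (RingOfIntegers.basis K).repr (c p.1.1) p.1.2
  have hmap : S.image g ⊆ Fintype.piFinset fun _ => Finset.Icc (-(X : ℤ)) X := by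
    intro a ha
    obtain ⟨c, hc, rfl⟩ := Finset.mem_image.1 ha
    rw [Fintype.mem_piFinset]
    intro p
    have h1 := Pool.Agent.N262.DR.sz_le_iff.1 ((hS c hc).1 p.1.1) p.1.2
    rw [Finset.mem_Icc]
    exact abs_le.1 h1
  have hTcard : (Fintype.piFinset fun _ : {p : Fin n × Module.Free.ChooseBasisIndex ℤ (𝓞 K) //
      p ≠ (j₀, l₀)} => Finset.Icc (-(X : ℤ)) X).card = (2 * X + 1) ^ (finrank ℚ K * n - 1) := by
    rw [Fintype.card_piFinset, Finset.prod_const, Finset.card_univ, Int.card_Icc]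
    have h1 : Fintype.card {p : Fin n × Module.Free.ChooseBasisIndex ℤ (𝓞 K) // p ≠ (j₀, l₀)} =
        finrank ℚ K * n - 1 := by
      have h2 := Fintype.card_subtype_compl (fun p : Fin n × Module.Free.ChooseBasisIndex ℤ (𝓞 K) =>
        p = (j₀, l₀))
      rw [Fintype.card_subtype_eq, Fintype.card_prod, Fintype.card_fin, hcι] at h2
      rw [mul_comm]
      exact h2
    rw [h1]
    congr 1
    omega
  have hfib : ∀ a ∈ S.image g, (S.filter (fun c => g c = a)).card ≤ ⌊2 * η / s0⌋₊ + 1 := by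
    intro a _
    have hco : ∀ c ∈ S.filter (fun c => g c = a), ∀ c' ∈ S.filter (fun c => g c = a),
        (∀ j, j ≠ j₀ → c j = c' j) ∧ c' j₀ = c j₀ + ((RingOfIntegers.basis K).repr (c' j₀) l₀ -
          (RingOfIntegers.basis K).repr (c j₀) l₀) • RingOfIntegers.basis K l₀ := by
      intro c hc c' hc'
      have h1 : g c = g c' := (Finset.mem_filter.1 hc).2.trans (Finset.mem_filter.1 hc').2.symm
      have h2 : ∀ j i, (j, i) ≠ (j₀, l₀) → (RingOfIntegers.basis K).repr (c j) i =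
          (RingOfIntegers.basis K).repr (c' j) i := fun j i hji => congrFun h1 ⟨(j, i), hji⟩
      refine ⟨fun j hj => ?_, coord _ _ _ fun i hi => h2 j₀ i fun h => hi (Prod.mk.inj h).2⟩
      apply (RingOfIntegers.basis K).repr.injective
      ext i
      exact h2 j i fun h => hj (Prod.mk.inj h).1
    have hinj : Set.InjOn (fun c : Fin n → 𝓞 K => (RingOfIntegers.basis K).repr (c j₀) l₀)
        (S.filter (fun c => g c = a) : Finset (Fin n → 𝓞 K)) := by
      intro c hc c' hc' h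
      obtain ⟨h1, h2⟩ := hco c (Finset.mem_coe.1 hc) c' (Finset.mem_coe.1 hc')
      have h3 : (RingOfIntegers.basis K).repr (c j₀) l₀ = (RingOfIntegers.basis K).repr (c' j₀) l₀ := h
      rw [h3, sub_self, zero_smul, add_zero] at h2
      funext j
      by_cases hj : j = j₀
      · rw [hj]
        exact h2.symm
      · exact h1 j hj
    rw [← Finset.card_image_of_injOn hinj]
    refine card_close (by positivity) ?_
    intro x hx y hy
    obtain ⟨c, hc, rfl⟩ := Finset.mem_image.1 hx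
    obtain ⟨c', hc', rfl⟩ := Finset.mem_image.1 hy
    obtain ⟨h1, h2⟩ := hco c hc c' hc'
    have hb1 := (hS c (Finset.mem_filter.1 hc).1).2
    have hb2 := (hS c' (Finset.mem_filter.1 hc').1).2
    obtain ⟨D, hD⟩ : ∃ D : ℤ, D = (RingOfIntegers.basis K).repr (c' j₀) l₀ -
      (RingOfIntegers.basis K).repr (c j₀) l₀ := ⟨_, rfl⟩
    rw [← hD] at h2
    have hσ : σ (c' j₀ : K) = σ (c j₀ : K) +
        (D : ℂ) * σ ((RingOfIntegers.basis K l₀ : 𝓞 K) : K) := by
      rw [h2]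
      simp
    have hdiff : ∑ j, σ (c' j : K) * b j - ∑ j, σ (c j : K) * b j =
        (D : ℂ) * σ ((RingOfIntegers.basis K l₀ : 𝓞 K) : K) * b j₀ := by
      rw [← Finset.sum_sub_distrib, Finset.sum_eq_single j₀]
      · rw [hσ]
        ring
      · intro j _ hj
        rw [h1 j hj, sub_self]
      · intro h
        exact absurd (Finset.mem_univ _) h
    have hnorm : |(D : ℝ)| * s0 * ‖b j₀‖ ≤ 2 * η := by
      have h3 : ‖(D : ℂ) * σ ((RingOfIntegers.basis K l₀ : 𝓞 K) : K) * b j₀‖ ≤ 2 * η := by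
        rw [← hdiff]
        refine (norm_sub_le _ _).trans ?_
        linarith
      rw [norm_mul, norm_mul, ← hs0] at h3
      have h4 : ‖(D : ℂ)‖ = |(D : ℝ)| := by
        rw [← Complex.ofReal_intCast, Complex.norm_real, Real.norm_eq_abs]
      rw [h4] at h3
      exact h3
    have h5 : |(D : ℝ)| * s0 ≤ 2 * η := by
      refine le_trans ?_ hnorm
      exact le_mul_of_one_le_right (by positivity) hj₀
    have h6 : |(D : ℝ)| ≤ 2 * η / s0 := by
      rw [le_div_iff₀ hs0p]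
      exact h5
    have h7 : ((RingOfIntegers.basis K).repr (c' j₀) l₀ : ℝ) -
        ((RingOfIntegers.basis K).repr (c j₀) l₀ : ℝ) = (D : ℝ) := by
      rw [hD]
      push_cast
      ring
    show ((RingOfIntegers.basis K).repr (c' j₀) l₀ : ℝ) -
        ((RingOfIntegers.basis K).repr (c j₀) l₀ : ℝ) ≤ 2 * η / s0
    rw [h7]
    exact (le_abs_self _).trans h6
  have h1 := Finset.card_le_mul_card_image S _ hfib
  have h2 := Finset.card_le_card hmap
  rw [hTcard] at h2
  have h3 : (S.card : ℝ) ≤ (⌊2 * η / s0⌋₊ + 1) * (2 * (X : ℝ) + 1) ^ (finrank ℚ K * n - 1) := by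
    have h4 : S.card ≤ (⌊2 * η / s0⌋₊ + 1) * (2 * X + 1) ^ (finrank ℚ K * n - 1) :=
      h1.trans (Nat.mul_le_mul_left _ h2)
    exact_mod_cast h4
  have hX' : (1 : ℝ) ≤ X := by exact_mod_cast hX
  have h5 : (⌊2 * η / s0⌋₊ : ℝ) ≤ 2 * η / s0 := Nat.floor_le (by positivity)
  have h6 : (2 * (X : ℝ) + 1) ^ (finrank ℚ K * n - 1) ≤
      3 ^ (finrank ℚ K * n - 1) * (X : ℝ) ^ (finrank ℚ K * n - 1) := by
    rw [← mul_pow]
    gcongr
    linarith
  have h7 : (X : ℝ) ^ ((finrank ℚ K : ℝ) * n - 1) = (X : ℝ) ^ (finrank ℚ K * n - 1) := by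
    rw [← Real.rpow_natCast]
    congr 1
    rw [Nat.cast_sub hdn]
    push_cast
    ring
  rw [h7]
  have h8 : (⌊2 * η / s0⌋₊ : ℝ) + 1 ≤ (2 / s0 + 1) * (1 + η) := by
    have h9 : (2 / s0 + 1) * (1 + η) = 2 * η / s0 + 1 + (2 / s0 + η) := by
      field_simp
      ring
    rw [h9]
    have : 0 ≤ 2 / s0 := by positivity
    linarith
  calc (S.card : ℝ) ≤ (⌊2 * η / s0⌋₊ + 1) * (2 * (X : ℝ) + 1) ^ (finrank ℚ K * n - 1) := h3
    _ ≤ ((2 / s0 + 1) * (1 + η)) *
        (3 ^ (finrank ℚ K * n - 1) * (X : ℝ) ^ (finrank ℚ K * n - 1)) := by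
        gcongr
    _ = 3 ^ (finrank ℚ K * n - 1) * (2 / s0 + 1) * (X : ℝ) ^ (finrank ℚ K * n - 1) *
        (1 + η) := by ring

end Pool.Agent.N364.PC
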